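import Mathlib

/-!
# Matrices with squarefree characteristic polynomial: commutant and minimal polynomial
-/

set_option autoImplicit false

open Polynomial Matrix

namespace Pool.Agent.W475.MF

theorem eig_poly {K n : Type*} [Field K] [Fintype n] [DecidableEq n] (A : Matrix n n K)
    (w : n → K) (α : K) (h : A *ᵥ w = α • w) (q : K[X]) :
    (aeval A q) *ᵥ w = q.eval α • w := by
  have hk : ∀ k : ℕ, (A ^ k) *ᵥ w = α ^ k • w := by
    intro k
    induction k with
    | zero => simp
    | succ k ih =>
      rw [pow_succ, ← Matrix.mulVec_mulVec, h, Matrix.mulVec_smul, ih, smul_smul, pow_succ,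
        mul_comm]
  induction q using Polynomial.induction_on' with
  | add p q hp hq => rw [map_add, Matrix.add_mulVec, hp, hq, eval_add, add_smul]
  | monomial k a =>
    rw [aeval_monomial, eval_monomial, ← Algebra.smul_def, Matrix.smul_mulVec, hk, smul_smul]

section

variable {F n : Type} [Field F] [PerfectField F] [Fintype n] [DecidableEq n] (A : Matrix n n F)

theorem exists_eig (hsq : Squarefree A.charpoly) :
    ∃ (v : n → (n → AlgebraicClosure F)) (α : n → AlgebraicClosure F), Function.Injective α ∧
      (∀ i, v i ≠ 0) ∧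
      (∀ i, A.map (algebraMap F (AlgebraicClosure F)) *ᵥ v i = α i • v i) := by
  classical
  set φ := algebraMap F (AlgebraicClosure F) with hφ
  set χ := (A.map φ).charpoly with hχ
  have hχ' : χ = A.charpoly.map φ := by rw [hχ, Matrix.charpoly_map]
  have hsep : χ.Separable := by
    rw [hχ']
    exact (PerfectField.separable_iff_squarefree.mpr hsq).map
  have hnd : χ.roots.Nodup := Polynomial.nodup_roots hsep
  have hcard : χ.roots.card = Fintype.card n := by
    rw [← (IsAlgClosed.splits χ).natDegree_eq_card_roots, hχ, Matrix.charpoly_natDegree_eq_dim]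
  have hS : χ.roots.toFinset.card = Fintype.card n := by
    rw [Multiset.toFinset_card_of_nodup hnd, hcard]
  have hS' : Fintype.card n = Fintype.card {x // x ∈ χ.roots.toFinset} := by
    rw [Fintype.card_coe, hS]
  let e : n ≃ {x // x ∈ χ.roots.toFinset} := Fintype.equivOfCardEq hS'
  have hroot : ∀ i, ∃ w : n → AlgebraicClosure F, w ≠ 0 ∧
      A.map φ *ᵥ w = ((e i : AlgebraicClosure F)) • w := by
    intro i
    have h1 : (e i : AlgebraicClosure F) ∈ χ.roots := Multiset.mem_toFinset.1 (e i).2
    have h2 : χ.eval (e i : AlgebraicClosure F) = 0 := (Polynomial.mem_roots'.1 h1).2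
    have h3 : (Matrix.scalar n (e i : AlgebraicClosure F) - A.map φ).det = 0 := by
      rw [← Matrix.eval_charpoly]; exact h2
    obtain ⟨w, hw, hw'⟩ := Matrix.exists_mulVec_eq_zero_iff.2 h3
    refine ⟨w, hw, ?_⟩
    rw [Matrix.sub_mulVec, sub_eq_zero] at hw'
    rw [← hw', Matrix.scalar_apply, Matrix.diagonal_const_mulVec]
  choose v hv hv' using hroot
  exact ⟨v, fun i => (e i : AlgebraicClosure F),
    Subtype.coe_injective.comp e.injective, hv, hv'⟩

theorem minpoly_deg (hsq : Squarefree A.charpoly) (m : F[X]) (hm : aeval A m = 0) (hm0 : m ≠ 0) :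
    Fintype.card n ≤ m.natDegree := by
  classical
  obtain ⟨v, α, hα, hv, hA⟩ := exists_eig A hsq
  set φ := algebraMap F (AlgebraicClosure F) with hφ
  have h1 : aeval (A.map φ) (m.map φ) = 0 := by
    have h2 : aeval (A.map φ) (m.map φ) = φ.mapMatrix (aeval A m) := by
      rw [Polynomial.aeval_def, Polynomial.aeval_def, Polynomial.eval₂_map,
        Polynomial.hom_eval₂]
      congr 1
      ext x i j
      simp only [RingHom.comp_apply, RingHom.mapMatrix_apply, Matrix.map_apply,
        Matrix.algebraMap_matrix_apply]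
      split_ifs
      · rfl
      · rw [map_zero]
    rw [h2, hm, map_zero]
  have hroots : ∀ i, (m.map φ).eval (α i) = 0 := by
    intro i
    have h3 := eig_poly (A.map φ) (v i) (α i) (hA i) (m.map φ)
    rw [h1, Matrix.zero_mulVec] at h3
    rcases smul_eq_zero.1 h3.symm with h4 | h4
    · exact h4
    · exact absurd h4 (hv i)
  have hm0' : m.map φ ≠ 0 := (Polynomial.map_ne_zero_iff φ.injective).2 hm0
  have hsub : Finset.univ.image α ⊆ (m.map φ).roots.toFinset := by
    intro x hx
    obtain ⟨i, _, rfl⟩ := Finset.mem_image.1 hx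
    rw [Multiset.mem_toFinset, Polynomial.mem_roots hm0']
    exact hroots i
  calc Fintype.card n = (Finset.univ.image α).card := by
        rw [Finset.card_image_of_injective _ hα, Finset.card_univ]
    _ ≤ (m.map φ).roots.toFinset.card := Finset.card_le_card hsub
    _ ≤ (m.map φ).roots.card := Multiset.toFinset_card_le _
    _ ≤ (m.map φ).natDegree := Polynomial.card_roots' _
    _ = m.natDegree := Polynomial.natDegree_map φ

theorem charpoly_dvd (hsq : Squarefree A.charpoly) (q : F[X]) (hq : aeval A q = 0) :
    A.charpoly ∣ q := by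
  have hmon : A.charpoly.Monic := Matrix.charpoly_monic A
  rw [← Polynomial.modByMonic_eq_zero_iff_dvd hmon]
  by_contra hne
  have h1 : aeval A (q %ₘ A.charpoly) = 0 := by
    have h2 := Polynomial.modByMonic_add_div q A.charpoly
    have h3 := congrArg (aeval A) h2
    rw [map_add, map_mul, Matrix.aeval_self_charpoly, zero_mul, add_zero, hq] at h3
    exact h3
  have h4 := minpoly_deg A hsq _ h1 hne
  have h5 := Polynomial.degree_modByMonic_lt q hmon
  rw [Polynomial.degree_eq_natDegree hne, Polynomial.degree_eq_natDegree hmon.ne_zero,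
    Matrix.charpoly_natDegree_eq_dim] at h5
  have h6 : (q %ₘ A.charpoly).natDegree < Fintype.card n := by exact_mod_cast h5
  omega

theorem comm_poly [Nonempty n] (hsq : Squarefree A.charpoly) (P : Matrix n n F)
    (hc : P * A = A * P) : ∃ q : F[X], P = aeval A q := by
  classical
  obtain ⟨v, α, hα, hv, hA⟩ := exists_eig A hsq
  set φ := algebraMap F (AlgebraicClosure F) with hφ
  set A' := A.map φ with hA'
  set P' := P.map φ with hP'
  have hc' : P' * A' = A' * P' := by
    rw [hP', hA', ← Matrix.map_mul, ← Matrix.map_mul, hc]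
  have hli : LinearIndependent (AlgebraicClosure F) v := by
    apply Module.End.eigenvectors_linearIndependent' (Matrix.toLin' A') α hα v
    intro i
    refine ⟨?_, hv i⟩
    rw [Module.End.mem_eigenspace_iff, Matrix.toLin'_apply]
    exact hA i
  let b := basisOfLinearIndependentOfCardEqFinrank hli (by simp)
  have hb : ∀ i, b i = v i := by intro i; simp [b]
  have hcoord : ∀ (j : n) (w : n → AlgebraicClosure F),
      b.repr (A' *ᵥ w) j = α j * b.repr w j := by
    intro j
    have h1 : (b.coord j) ∘ₗ (Matrix.toLin' A') = α j • b.coord j := by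
      apply b.ext
      intro k
      rw [LinearMap.comp_apply, LinearMap.smul_apply, Matrix.toLin'_apply, hb, hA, ← hb,
        map_smul, smul_eq_mul, smul_eq_mul, Module.Basis.coord_apply, b.repr_self,
        Finsupp.single_apply]
      split_ifs with h
      · rw [h]
      · rw [mul_zero, mul_zero]
    intro w
    have h2 := congrArg (fun L => L w) h1
    simpa using h2
  have hPv : ∀ i, ∃ c : AlgebraicClosure F, P' *ᵥ v i = c • v i := by
    intro i
    refine ⟨b.repr (P' *ᵥ v i) i, ?_⟩
    have h1 : A' *ᵥ (P' *ᵥ v i) = α i • (P' *ᵥ v i) := by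
      rw [Matrix.mulVec_mulVec, ← hc', ← Matrix.mulVec_mulVec, hA, Matrix.mulVec_smul]
    conv_lhs => rw [← b.sum_repr (P' *ᵥ v i)]
    rw [Finset.sum_eq_single i]
    · rw [hb]
    · intro j _ hji
      have h2 := hcoord j (P' *ᵥ v i)
      rw [h1, map_smul, Finsupp.smul_apply, smul_eq_mul] at h2
      have h3 : (α i - α j) * b.repr (P' *ᵥ v i) j = 0 := by linear_combination h2
      rcases mul_eq_zero.1 h3 with h4 | h4
      · exact absurd (hα (sub_eq_zero.1 h4)).symm hji
      · rw [h4, zero_smul]
    · intro h
      exact absurd (Finset.mem_univ i) h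
  choose c hcv using hPv
  let q0 := Lagrange.interpolate Finset.univ α c
  have hq0 : ∀ i, q0.eval (α i) = c i := fun i =>
    Lagrange.eval_interpolate_at_node c (hα.injOn) (Finset.mem_univ i)
  have hPq : P' = aeval A' q0 := by
    apply Matrix.toLin'.injective
    apply b.ext
    intro i
    rw [Matrix.toLin'_apply, Matrix.toLin'_apply, hb, hcv, eig_poly A' (v i) (α i) (hA i),
      hq0]
  obtain ⟨π, hπ⟩ := LinearMap.exists_leftInverse_of_injective
    (Algebra.linearMap F (AlgebraicClosure F))
    (LinearMap.ker_eq_bot.2 (algebraMap F (AlgebraicClosure F)).injective)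
  have hπ' : ∀ x : F, π (φ x) = x := by
    intro x
    have := congrArg (fun L => L x) hπ
    simpa using this
  refine ⟨∑ k ∈ Finset.range (q0.natDegree + 1), C (π (q0.coeff k)) * X ^ k, ?_⟩
  ext i j
  rw [map_sum, Matrix.sum_apply]
  have h1 : P' i j = φ (P i j) := rfl
  have h2 : (aeval A' q0) i j =
      ∑ k ∈ Finset.range (q0.natDegree + 1), q0.coeff k * φ ((A ^ k) i j) := by
    rw [Polynomial.aeval_eq_sum_range, Matrix.sum_apply]
    refine Finset.sum_congr rfl fun k _ => ?_
    have h3 : A' ^ k = (A ^ k).map φ := by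
      have h4 := map_pow (φ.mapMatrix (m := n)) A k
      exact h4.symm
    rw [Matrix.smul_apply, h3, Matrix.map_apply, smul_eq_mul]
  have h5 : P i j = π (P' i j) := by rw [h1, hπ']
  rw [h5, hPq, h2, map_sum]
  refine Finset.sum_congr rfl fun k _ => ?_
  have h6 : q0.coeff k * φ ((A ^ k) i j) = ((A ^ k) i j) • q0.coeff k := by
    rw [Algebra.smul_def, mul_comm]
  have h7 : (aeval A) (C (π (q0.coeff k)) * X ^ k) = (π (q0.coeff k)) • A ^ k := by
    rw [map_mul, map_pow, aeval_X, aeval_C, ← Algebra.smul_def]
  rw [h6, map_smul, smul_eq_mul, h7, Matrix.smul_apply, smul_eq_mul, mul_comm]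

end

end Pool.Agent.W475.MF
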