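import Pool.Agent.W458.MF.OStm
import Pool.Agent.W475.MF.Comm
import Pool.Agent.W337.MF.OrbC
import Pool.Agent.W101.MF.WM

/-!
# Isometries with given characteristic polynomial in a coset (project MFO, OORB)
-/

set_option autoImplicit false

open Polynomial Matrix

namespace Pool.Agent.W475.MF

open Pool.Agent.W521.Frob Pool.Agent.W458.MF

theorem iso_unit {g l : ℕ} (P : Matrix (Fin g ⊕ Fin g) (Fin g ⊕ Fin g) (ZMod l))
    (h : P * splitForm g l * Pᵀ = splitForm g l) :
    ∃ U ∈ isometries g l, U.val = P := by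
  have h1 : P * (splitForm g l * Pᵀ * splitForm g l) = 1 := by
    rw [← Matrix.mul_assoc, ← Matrix.mul_assoc, h, splitForm_mul]
  have h2 : (splitForm g l * Pᵀ * splitForm g l) * P = 1 := mul_eq_one_comm.1 h1
  exact ⟨⟨P, splitForm g l * Pᵀ * splitForm g l, h1, h2⟩, h, rfl⟩

theorem diag_iso (g l : ℕ) (κ : (ZMod l)ˣ) :
    diagElt g l κ * splitForm g l * (diagElt g l κ)ᵀ = splitForm g l := by
  set d : Fin g → ZMod l := fun i => if i.val = 0 then (κ : ZMod l) else 1 with hd
  set d' : Fin g → ZMod l := fun i => if i.val = 0 then ((κ⁻¹ : (ZMod l)ˣ) : ZMod l) else 1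
    with hd'
  have hdd : ∀ i, d i * d' i = 1 := by
    intro i
    simp only [hd, hd']
    split_ifs
    · exact Units.mul_inv κ
    · exact one_mul 1
  have hdd' : Matrix.diagonal d * Matrix.diagonal d' = 1 := by
    rw [Matrix.diagonal_mul_diagonal, ← Matrix.diagonal_one]
    congr 1
    funext i
    exact hdd i
  have hd'd : Matrix.diagonal d' * Matrix.diagonal d = 1 := by
    rw [Matrix.diagonal_mul_diagonal, ← Matrix.diagonal_one]
    congr 1
    funext i
    rw [mul_comm]
    exact hdd i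
  have h1 : diagElt g l κ = Matrix.fromBlocks (Matrix.diagonal d) 0 0 (Matrix.diagonal d') := by
    rw [Matrix.fromBlocks_diagonal]
    rfl
  rw [h1, splitForm, Matrix.fromBlocks_transpose, Matrix.fromBlocks_multiply,
    Matrix.fromBlocks_multiply]
  simp only [Matrix.mul_zero, Matrix.zero_mul, add_zero, zero_add, Matrix.mul_one,
    Matrix.transpose_zero, Matrix.diagonal_transpose]
  rw [hdd', hd'd]

theorem omega_le (g l : ℕ) : Omega g l ≤ isometries g l := by
  unfold Omega
  rw [Subgroup.commutator_le]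
  intro x hx y hy
  rw [commutatorElement_def]
  exact (isometries g l).mul_mem ((isometries g l).mul_mem ((isometries g l).mul_mem hx hy)
    ((isometries g l).inv_mem hx)) ((isometries g l).inv_mem hy)

/-- the centralizer of an isometry with squarefree characteristic polynomial -/
theorem central_count (g l r : ℕ) (hg : 0 < g) (hl : l.Prime) (hr : (r : ZMod l) ≠ 0)
    (u : (ZMod l)[X]) (hu : u.Monic) (hug : u.natDegree = g)
    (B : Matrix (Fin g ⊕ Fin g) (Fin g ⊕ Fin g) (ZMod l))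
    (hB : B * splitForm g l * Bᵀ = splitForm g l)
    (hchar : ((r : ZMod l) • B).charpoly = weilm ((r : ZMod l) ^ 2) u)
    (hsq : Squarefree (weilm ((r : ZMod l) ^ 2) u)) :
    {P : Matrix (Fin g ⊕ Fin g) (Fin g ⊕ Fin g) (ZMod l) |
      P * splitForm g l * Pᵀ = splitForm g l ∧ P * B = B * P}.ncard ≤ (2 * l) ^ g := by
  classical
  have : Fact l.Prime := ⟨hl⟩
  have hne : Nonempty (Fin g ⊕ Fin g) := ⟨Sum.inl ⟨0, hg⟩⟩
  obtain ⟨K, hK⟩ : ∃ K, K = splitForm g l := ⟨_, rfl⟩
  have hKK : K * K = 1 := by rw [hK]; exact splitForm_mul g l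
  have hKt : Kᵀ = K := by rw [hK]; exact splitForm_transpose g l
  rw [← hK] at hB ⊢
  set ρ : ZMod l := (r : ZMod l) with hρ
  obtain ⟨A, hA⟩ : ∃ A, A = ρ • B := ⟨_, rfl⟩
  rw [← hA] at hchar
  obtain ⟨Bi, hBi⟩ : ∃ Bi, Bi = K * Bᵀ * K := ⟨_, rfl⟩
  have hBBi : B * Bi = 1 := by
    rw [hBi, ← Matrix.mul_assoc, ← Matrix.mul_assoc, hB, hKK]
  have hBiB : Bi * B = 1 := mul_eq_one_comm.1 hBBi
  obtain ⟨θ, hθ⟩ : ∃ θ, θ = ρ • (B + Bi) := ⟨_, rfl⟩
  have hsqA : Squarefree A.charpoly := by rw [hchar]; exact hsq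
  have hcardn : Fintype.card (Fin g ⊕ Fin g) = 2 * g := by
    rw [Fintype.card_sum, Fintype.card_fin]; omega
  -- commutation
  have hBθ : B * θ = θ * B := by
    rw [hθ, Matrix.mul_smul, Matrix.smul_mul, Matrix.mul_add, Matrix.add_mul, hBBi, hBiB]
  have hAθ : Commute A θ := by
    rw [hA]
    change (ρ • B) * θ = θ * (ρ • B)
    rw [Matrix.smul_mul, Matrix.mul_smul, hBθ]
  have hθA : A ^ 2 + algebraMap (ZMod l) _ (ρ ^ 2) = θ * A := by
    rw [hA, hθ, Matrix.smul_mul, Matrix.mul_smul, Matrix.add_mul, hBiB, pow_two,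
      Matrix.smul_mul, Matrix.mul_smul, smul_smul, smul_smul, smul_add,
      Algebra.algebraMap_eq_smul_one, pow_two]
  -- weilm
  have hXC : aeval A (X ^ 2 + C (ρ ^ 2)) = θ * A := by
    rw [map_add, aeval_C, aeval_X_pow, hθA]
  have hweil : ∀ w : (ZMod l)[X], aeval A (weilm (ρ ^ 2) w) = aeval θ w * A ^ w.natDegree := by
    intro w
    unfold weilm
    rw [map_sum, Polynomial.aeval_eq_sum_range (p := w) θ, Finset.sum_mul]
    refine Finset.sum_congr rfl fun j hj => ?_
    have hj' : j ≤ w.natDegree := by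
      have := Finset.mem_range.1 hj
      omega
    rw [map_mul, map_mul, map_pow (aeval A) (X ^ 2 + C (ρ ^ 2)) j, hXC, aeval_X_pow, aeval_C,
      ← Algebra.smul_def, hAθ.symm.mul_pow, Matrix.smul_mul, Matrix.mul_assoc, ← pow_add]
    congr 3
    congr 1
    omega
  have hAunit : ∀ (m : ℕ) (X : Matrix (Fin g ⊕ Fin g) (Fin g ⊕ Fin g) (ZMod l)),
      X * A ^ m = 0 → X = 0 := by
    intro m
    have h1 : A * (ρ⁻¹ • Bi) = 1 := by
      rw [hA, Matrix.smul_mul, Matrix.mul_smul, hBBi, smul_smul, mul_inv_cancel₀ hr, one_smul]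
    induction m with
    | zero =>
      intro X hX
      rwa [pow_zero, Matrix.mul_one] at hX
    | succ m ih =>
      intro X hX
      apply ih
      have h2 := congrArg (fun Z => Z * (ρ⁻¹ • Bi)) hX
      simp only [Matrix.zero_mul] at h2
      rw [pow_succ, Matrix.mul_assoc, Matrix.mul_assoc, h1, Matrix.mul_one] at h2
      exact h2
  have hθu : aeval θ u = 0 := by
    apply hAunit u.natDegree
    rw [← hweil, ← hchar]
    exact Matrix.aeval_self_charpoly A
  -- the kernel of evaluation at θ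
  have hker : ∀ w : (ZMod l)[X], aeval θ w = 0 → u ∣ w := by
    intro w hw
    rw [← Polynomial.modByMonic_eq_zero_iff_dvd hu]
    by_contra hne0
    obtain ⟨w1, hw1⟩ : ∃ w1, w1 = w %ₘ u := ⟨_, rfl⟩
    rw [← hw1] at hne0
    have h1 : aeval θ w1 = 0 := by
      have h2 := Polynomial.modByMonic_add_div w u
      have h3 := congrArg (aeval θ) h2
      rw [map_add, map_mul, hθu, zero_mul, add_zero, hw] at h3
      rw [hw1]; exact h3
    have hdeg : w1.natDegree < g := by
      have h5 := Polynomial.degree_modByMonic_lt w hu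
      rw [← hw1, Polynomial.degree_eq_natDegree hne0, Polynomial.degree_eq_natDegree hu.ne_zero,
        hug] at h5
      exact_mod_cast h5
    obtain ⟨w2, hw2⟩ : ∃ w2, w2 = C (w1.leadingCoeff⁻¹) * w1 := ⟨_, rfl⟩
    have hlc : w1.leadingCoeff ≠ 0 := Polynomial.leadingCoeff_ne_zero.2 hne0
    have hw2m : w2.Monic := by
      rw [hw2, Polynomial.Monic, Polynomial.leadingCoeff_mul, Polynomial.leadingCoeff_C,
        inv_mul_cancel₀ hlc]
    have hw2d : w2.natDegree = w1.natDegree := by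
      rw [hw2, Polynomial.natDegree_C_mul (inv_ne_zero hlc)]
    have h6 : aeval θ w2 = 0 := by rw [hw2, map_mul, h1, mul_zero]
    have h7 : aeval A (weilm (ρ ^ 2) w2) = 0 := by rw [hweil, h6, Matrix.zero_mul]
    obtain ⟨h8, h9⟩ := (Pool.Agent.W101.MF.wm l hl (ρ ^ 2)).2.2.1 w2 hw2m
    have h10 := minpoly_deg A hsqA _ h7 h8.ne_zero
    rw [hcardn, h9, hw2d] at h10
    omega
  -- the algebra
  let ψ : AdjoinRoot u →ₐ[ZMod l] Matrix (Fin g ⊕ Fin g) (Fin g ⊕ Fin g) (ZMod l) :=
    Ideal.Quotient.liftₐ (Ideal.span {u}) (aeval θ) (by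
      intro a ha
      obtain ⟨b, rfl⟩ := Ideal.mem_span_singleton.1 ha
      rw [map_mul, hθu, zero_mul])
  have hψ : ∀ w : (ZMod l)[X], ψ (AdjoinRoot.mk u w) = aeval θ w := by
    intro w
    exact Ideal.Quotient.lift_mk _ _ _
  have hψinj : Function.Injective ψ := by
    rw [injective_iff_map_eq_zero]
    intro x hx
    obtain ⟨w, rfl⟩ := AdjoinRoot.mk_surjective x
    rw [hψ] at hx
    exact AdjoinRoot.mk_eq_zero.2 (hker w hx)
  have hred : IsReduced (AdjoinRoot u) := by
    constructor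
    rintro x ⟨k, hk⟩
    obtain ⟨w, rfl⟩ := AdjoinRoot.mk_surjective x
    have h1 : aeval θ (w ^ k) = 0 := by
      rw [← hψ, map_pow, hk, map_zero]
    -- w(θ) is a polynomial in A
    obtain ⟨q, hq⟩ : ∃ q : (ZMod l)[X], θ = aeval A q := by
      apply comm_poly A hsqA
      exact hAθ.symm.eq
    have h2 : aeval A ((w.comp q) ^ k) = 0 := by
      rw [map_pow, Polynomial.aeval_comp, ← hq, ← map_pow]
      exact h1
    have h3 : A.charpoly ∣ (w.comp q) ^ k := charpoly_dvd A hsqA _ h2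
    have h4 : IsRadical A.charpoly :=
      (isRadical_iff_squarefree_of_ne_zero (Matrix.charpoly_monic A).ne_zero).2 hsqA
    have h5 : A.charpoly ∣ w.comp q := h4 k _ h3
    obtain ⟨c, hc⟩ := h5
    have h6 : aeval θ w = 0 := by
      rw [hq, ← Polynomial.aeval_comp, hc, map_mul, Matrix.aeval_self_charpoly, zero_mul]
    exact AdjoinRoot.mk_eq_zero.2 (hker w h6)
  let pb := AdjoinRoot.powerBasis hu.ne_zero
  have hpb : pb.dim = g := by
    rw [← hug]; rfl
  let b : Module.Basis (Fin g) (ZMod l) (AdjoinRoot u) := pb.basis.reindex (finCongr hpb)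
  have hfin : Finite (AdjoinRoot u) := Finite.of_equiv _ b.equivFun.symm.toEquiv
  have hcard : Nat.card (AdjoinRoot u) = Nat.card (ZMod l) ^ g := by
    rw [Nat.card_congr b.equivFun.toEquiv, Nat.card_fun, Nat.card_fin]
  obtain ⟨t, ht⟩ : ∃ t : AdjoinRoot u, t = ρ⁻¹ • AdjoinRoot.root u := ⟨_, rfl⟩
  have hψt : ψ t = B + Bi := by
    have h1 : ψ (AdjoinRoot.root u) = θ := by
      have := hψ X
      rwa [aeval_X, AdjoinRoot.mk_X] at this
    rw [ht, map_smul, h1, hθ, smul_smul, inv_mul_cancel₀ hr, one_smul]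
  -- everything commutes with B
  have hBψ : ∀ x, B * ψ x = ψ x * B := by
    intro x
    obtain ⟨w, rfl⟩ := AdjoinRoot.mk_surjective x
    rw [hψ]
    have h1 : Commute B θ := hBθ
    have h2 : Commute B (aeval θ w) := by
      induction w using Polynomial.induction_on' with
      | add p q hp hq => rw [map_add]; exact hp.add_right hq
      | monomial k a =>
        rw [aeval_monomial]
        exact Commute.mul_right (Algebra.commutes a B).symm (h1.pow_right k)
    exact h2
  -- stars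
  have hθstar : K * θᵀ * K = θ := by
    have h1 : K * Biᵀ * K = B := by
      rw [hBi, Matrix.transpose_mul, Matrix.transpose_mul, Matrix.transpose_transpose, hKt]
      calc K * (K * (B * K)) * K = (K * K) * B * (K * K) := by simp only [Matrix.mul_assoc]
        _ = B := by rw [hKK, Matrix.one_mul, Matrix.mul_one]
    rw [hθ, Matrix.transpose_smul, Matrix.transpose_add, Matrix.mul_smul, Matrix.smul_mul,
      Matrix.mul_add, Matrix.add_mul, h1, ← hBi, add_comm]
  have hψstar : ∀ x, K * (ψ x)ᵀ * K = ψ x := by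
    intro x
    obtain ⟨w, rfl⟩ := AdjoinRoot.mk_surjective x
    rw [hψ]
    have hpow : ∀ k : ℕ, K * (θ ^ k)ᵀ * K = θ ^ k := by
      intro k
      induction k with
      | zero => rw [pow_zero, Matrix.transpose_one, Matrix.mul_one, hKK]
      | succ k ih =>
        rw [pow_succ, Matrix.transpose_mul]
        calc K * (θᵀ * (θ ^ k)ᵀ) * K = (K * θᵀ) * 1 * ((θ ^ k)ᵀ * K) := by
              rw [Matrix.mul_one]; simp only [Matrix.mul_assoc]
          _ = (K * θᵀ) * (K * K) * ((θ ^ k)ᵀ * K) := by rw [hKK]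
          _ = (K * θᵀ * K) * (K * (θ ^ k)ᵀ * K) := by simp only [Matrix.mul_assoc]
          _ = θ ^ k * θ := by rw [hθstar, ih, ← pow_succ, ← pow_succ']
    induction w using Polynomial.induction_on' with
    | add p q hp hq =>
      rw [map_add, Matrix.transpose_add, Matrix.mul_add, Matrix.add_mul, hp, hq]
    | monomial k a =>
      rw [aeval_monomial, ← Algebra.smul_def, Matrix.transpose_smul, Matrix.mul_smul,
        Matrix.smul_mul, hpow]
  -- polynomials in A
  have hB2 : B * B = ψ t * B - 1 := by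
    rw [hψt, Matrix.add_mul, hBiB]; abel
  have hpoly : ∀ q : (ZMod l)[X], ∃ x y : AdjoinRoot u, aeval A q = ψ x + ψ y * B := by
    have hpow : ∀ k : ℕ, ∃ x y : AdjoinRoot u, A ^ k = ψ x + ψ y * B := by
      intro k
      induction k with
      | zero => exact ⟨1, 0, by rw [map_one, map_zero, Matrix.zero_mul, add_zero, pow_zero]⟩
      | succ k ih =>
        obtain ⟨x, y, hxy⟩ := ih
        refine ⟨-(ρ • y), ρ • (x + y * t), ?_⟩
        rw [pow_succ, hxy, hA, Matrix.mul_smul, Matrix.add_mul, Matrix.mul_assoc, hB2,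
          Matrix.mul_sub, Matrix.mul_one, map_neg, map_smul, map_smul, map_add, map_mul,
          Matrix.smul_mul, Matrix.add_mul, Matrix.mul_assoc, smul_add, smul_sub, smul_add]
        abel
    intro q
    induction q using Polynomial.induction_on' with
    | add p q hp hq =>
      obtain ⟨x, y, h1⟩ := hp
      obtain ⟨x', y', h2⟩ := hq
      refine ⟨x + x', y + y', ?_⟩
      rw [map_add, h1, h2, map_add, map_add, Matrix.add_mul]
      abel
    | monomial k a =>
      obtain ⟨x, y, h1⟩ := hpow k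
      refine ⟨a • x, a • y, ?_⟩
      rw [aeval_monomial, ← Algebra.smul_def, h1, map_smul, map_smul, Matrix.smul_mul, smul_add]
  have hfinM : Finite (Matrix (Fin g ⊕ Fin g) (Fin g ⊕ Fin g) (ZMod l)) :=
    inferInstanceAs (Finite (Fin g ⊕ Fin g → Fin g ⊕ Fin g → ZMod l))
  have hcount := Pool.Agent.W337.MF.count_pairs hcard (1 : ZMod l) t
  rw [Nat.card_zmod] at hcount
  refine le_trans ?_ hcount
  have hsub : {P : Matrix (Fin g ⊕ Fin g) (Fin g ⊕ Fin g) (ZMod l) |
      P * K * Pᵀ = K ∧ P * B = B * P} ⊆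
      (fun p : AdjoinRoot u × AdjoinRoot u => ψ p.1 + ψ p.2 * B) ''
        {p : AdjoinRoot u × AdjoinRoot u | (p.1 + t * p.2) * p.1 + (1 : ZMod l) • (p.2 * p.2) = 1}
      := by
    rintro P ⟨hP1, hP2⟩
    have hPA : P * A = A * P := by rw [hA, Matrix.mul_smul, Matrix.smul_mul, hP2]
    obtain ⟨q, hq⟩ := comm_poly A hsqA P hPA
    obtain ⟨x, y, hxy⟩ := hpoly q
    rw [← hq] at hxy
    refine ⟨(x, y), ?_, hxy.symm⟩
    have h1 : P * (K * Pᵀ * K) = 1 := by
      rw [← Matrix.mul_assoc, ← Matrix.mul_assoc, hP1, hKK]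
    have h2 : K * Pᵀ * K = ψ x + Bi * ψ y := by
      rw [hxy, Matrix.transpose_add, Matrix.transpose_mul, Matrix.mul_add, Matrix.add_mul,
        hψstar]
      congr 1
      calc K * (Bᵀ * (ψ y)ᵀ) * K = (K * Bᵀ) * 1 * ((ψ y)ᵀ * K) := by
            rw [Matrix.mul_one]; simp only [Matrix.mul_assoc]
        _ = (K * Bᵀ) * (K * K) * ((ψ y)ᵀ * K) := by rw [hKK]
        _ = (K * Bᵀ * K) * (K * (ψ y)ᵀ * K) := by simp only [Matrix.mul_assoc]
        _ = Bi * ψ y := by rw [← hBi, hψstar]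
    rw [h2, hxy] at h1
    have h3 : (ψ x + ψ y * B) * (ψ x + Bi * ψ y) = ψ ((x + t * y) * x + y * y) := by
      have e1 : ψ y * B * ψ x = ψ y * ψ x * B := by
        rw [Matrix.mul_assoc, hBψ, ← Matrix.mul_assoc]
      have e2 : ψ y * B * (Bi * ψ y) = ψ y * ψ y := by
        calc ψ y * B * (Bi * ψ y) = ψ y * (B * Bi) * ψ y := by simp only [Matrix.mul_assoc]
          _ = ψ y * ψ y := by rw [hBBi, Matrix.mul_one]
      have e3 : Bi * ψ y = ψ y * Bi := by
        calc Bi * ψ y = Bi * ψ y * (B * Bi) := by rw [hBBi, Matrix.mul_one]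
          _ = Bi * (ψ y * B) * Bi := by simp only [Matrix.mul_assoc]
          _ = Bi * (B * ψ y) * Bi := by rw [hBψ]
          _ = (Bi * B) * ψ y * Bi := by simp only [Matrix.mul_assoc]
          _ = ψ y * Bi := by rw [hBiB, Matrix.one_mul]
      have e4 : ψ x * (Bi * ψ y) = ψ x * ψ y * Bi := by
        rw [e3, ← Matrix.mul_assoc]
      have e5 : ψ y * ψ x = ψ x * ψ y := by rw [← map_mul, ← map_mul, mul_comm]
      rw [Matrix.mul_add, Matrix.add_mul, Matrix.add_mul, e1, e2, e4, e5]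
      have e6 : (x + t * y) * x + y * y = x * x + (x * y) * t + y * y := by ring
      rw [e6, map_add, map_add, map_mul, map_mul, map_mul, map_mul, hψt, Matrix.mul_add]
      abel
    rw [h3] at h1
    have h4 : (x + t * y) * x + y * y = 1 := by
      apply hψinj
      rw [h1, map_one]
    rw [Set.mem_ofPred_eq, one_smul]
    exact h4
  exact (Set.ncard_le_ncard hsub (Set.toFinite _)).trans (Set.ncard_image_le (Set.toFinite _))

theorem oorb : St_OORB := by
  classical
  intro g l r κ u hg hl _ hlr hu hug hsq ⟨B0, hB0, hB0c⟩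
  have : Fact l.Prime := ⟨hl⟩
  have hr : (r : ZMod l) ≠ 0 := by
    intro h0
    exact hlr ((ZMod.natCast_eq_zero_iff r l).1 h0)
  have hfinM : Finite (Matrix (Fin g ⊕ Fin g) (Fin g ⊕ Fin g) (ZMod l)) :=
    inferInstanceAs (Finite (Fin g ⊕ Fin g → Fin g ⊕ Fin g → ZMod l))
  have : Fintype (Matrix (Fin g ⊕ Fin g) (Fin g ⊕ Fin g) (ZMod l)) := Fintype.ofFinite _
  obtain ⟨D, hD, hDv⟩ := iso_unit _ (diag_iso g l κ)
  obtain ⟨ω0, hω0, hB0e⟩ := hB0
  have hω0' : ω0 ∈ isometries g l := omega_le g l hω0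
  set Gs : Set (Matrix (Fin g ⊕ Fin g) (Fin g ⊕ Fin g) (ZMod l)) :=
    {P | P * splitForm g l * Pᵀ = splitForm g l} with hGs
  have hmem : ∀ U ∈ isometries g l, U.val ∈ Gs := fun U hU => hU
  have hB0u : B0 = (D * ω0).val := by rw [hB0e, Units.val_mul, hDv]
  have hB0G : B0 * splitForm g l * B0ᵀ = splitForm g l := by
    rw [hB0u]
    exact hmem _ ((isometries g l).mul_mem hD hω0')
  -- (1)
  have hc1 : (cosetOf g l κ).ncard ≤ Gs.ncard := by
    apply Set.ncard_le_ncard _ (Set.toFinite _)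
    rintro B ⟨ω, hω, rfl⟩
    rw [← hDv, ← Units.val_mul]
    exact hmem _ ((isometries g l).mul_mem hD (omega_le g l hω))
  refine hc1.trans ?_
  set Ts : Set (Matrix (Fin g ⊕ Fin g) (Fin g ⊕ Fin g) (ZMod l)) :=
    {B | B ∈ cosetOf g l κ ∧
      ((r : ZMod l) • B).charpoly = weilm ((r : ZMod l) ^ 2) u} with hTs
  have hZ := central_count g l r hg hl hr u hu hug B0 hB0G hB0c hsq
  rw [Set.ncard_eq_toFinset_card' Gs, Set.ncard_eq_toFinset_card' Ts]
  have hdet : ∀ P ∈ Gs, IsUnit P.det := by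
    intro P hP
    obtain ⟨U, _, hU⟩ := iso_unit P hP
    rw [← hU]
    exact (Matrix.isUnit_iff_isUnit_det _).1 U.isUnit
  apply Finset.card_le_mul_card_image_of_maps_to (f := fun P => P * B0 * P⁻¹)
  · intro P hP
    rw [Set.mem_toFinset] at hP ⊢
    obtain ⟨U, hU, hUv⟩ := iso_unit P hP
    have hPi : P⁻¹ = (U⁻¹).val := by
      rw [← hUv, Matrix.coe_units_inv]
    have e1 : P * B0 * P⁻¹ = (U * (D * ω0) * U⁻¹).val := by
      rw [Units.val_mul, Units.val_mul, hUv, ← hB0u, hPi]
    refine ⟨?_, ?_⟩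
    · refine ⟨D⁻¹ * (U * (D * ω0) * U⁻¹), ?_, ?_⟩
      · have c1 := Subgroup.commutator_mem_commutator ((isometries g l).inv_mem hD) hU
        have c2 := Subgroup.commutator_mem_commutator hU hω0'
        rw [commutatorElement_def] at c1 c2
        have e2 : D⁻¹ * (U * (D * ω0) * U⁻¹) =
            (D⁻¹ * U * (D⁻¹)⁻¹ * U⁻¹) * ((U * ω0 * U⁻¹ * ω0⁻¹) * ω0) := by
          group
        rw [e2]
        exact (Omega g l).mul_mem c1 ((Omega g l).mul_mem c2 hω0)
      · change P * B0 * P⁻¹ = _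
        rw [e1, ← hDv, ← Units.val_mul, mul_inv_cancel_left]
    · have e3 : (r : ZMod l) • (P * B0 * P⁻¹) = P * ((r : ZMod l) • B0) * P⁻¹ := by
        rw [Matrix.mul_smul, Matrix.smul_mul]
      change ((r : ZMod l) • (P * B0 * P⁻¹)).charpoly = _
      rw [e3, ← hB0c, Matrix.mul_assoc, Matrix.charpoly_mul_comm, Matrix.mul_assoc,
        Matrix.nonsing_inv_mul _ (hdet P hP), Matrix.mul_one]
  · intro A hA
    by_cases hne : ∃ P1, P1 ∈ Gs ∧ P1 * B0 * P1⁻¹ = A
    · obtain ⟨P1, hP1, hP1A⟩ := hne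
      refine le_trans ?_ hZ
      rw [Set.ncard_eq_toFinset_card']
      obtain ⟨U1, hU1, hU1v⟩ := iso_unit P1 hP1
      have hP1u := hdet P1 hP1
      have hP1i : P1⁻¹ = (U1⁻¹).val := by
        rw [← hU1v, Matrix.coe_units_inv]
      apply Finset.card_le_card_of_injOn (fun P => P1⁻¹ * P)
      · intro P hP
        simp only [Finset.coe_filter, Set.mem_toFinset, Set.mem_ofPred_eq, Finset.mem_coe] at hP ⊢
        obtain ⟨hP2, hP3⟩ := hP
        have hPu := hdet P hP2
        obtain ⟨U, hU, hUv⟩ := iso_unit P hP2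
        refine ⟨?_, ?_⟩
        · have := hmem _ ((isometries g l).mul_mem ((isometries g l).inv_mem hU1) hU)
          rw [Units.val_mul, hUv, ← hP1i] at this
          exact this
        · have h7 : P * B0 = A * P := by
            rw [← hP3, Matrix.mul_assoc, Matrix.nonsing_inv_mul _ hPu, Matrix.mul_one]
          have h8 : P1 * B0 = A * P1 := by
            rw [← hP1A, Matrix.mul_assoc, Matrix.nonsing_inv_mul _ hP1u, Matrix.mul_one]
          have h9 : B0 * P1⁻¹ = P1⁻¹ * A := by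
            calc B0 * P1⁻¹ = (P1⁻¹ * P1) * B0 * P1⁻¹ := by
                  rw [Matrix.nonsing_inv_mul _ hP1u, Matrix.one_mul]
              _ = P1⁻¹ * (P1 * B0) * P1⁻¹ := by simp only [Matrix.mul_assoc]
              _ = P1⁻¹ * A * (P1 * P1⁻¹) := by rw [h8]; simp only [Matrix.mul_assoc]
              _ = P1⁻¹ * A := by rw [Matrix.mul_nonsing_inv _ hP1u, Matrix.mul_one]
          rw [Matrix.mul_assoc, h7, ← Matrix.mul_assoc, ← Matrix.mul_assoc, h9]
      · intro P _ P' _ hPP
        have h5 : P1 * (P1⁻¹ * P) = P1 * (P1⁻¹ * P') := congrArg (fun Z => P1 * Z) hPP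
        rwa [← Matrix.mul_assoc, ← Matrix.mul_assoc, Matrix.mul_nonsing_inv _ hP1u, Matrix.one_mul,
          Matrix.one_mul] at h5
    · have h5 : (Finset.filter (fun P => P * B0 * P⁻¹ = A) Gs.toFinset) = ∅ := by
        rw [Finset.filter_eq_empty_iff]
        intro P hP hPA
        exact hne ⟨P, Set.mem_toFinset.1 hP, hPA⟩
      rw [h5, Finset.card_empty]
      exact Nat.zero_le _

end Pool.Agent.W475.MF
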