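import Pool.Agent.W458.MF.OStm

/-!
# Block diagonal isometries with given characteristic polynomial (project MFO, REAL1)
-/

set_option autoImplicit false

open Polynomial

namespace Pool.Agent.W475.MF

open Pool.Agent.W521.Frob Pool.Agent.W458.MF

theorem exists_charpoly {F : Type} [Field F] (f : F[X]) (hf : f.Monic) (g : ℕ)
    (hg : f.natDegree = g) : ∃ M : Matrix (Fin g) (Fin g) F, M.charpoly = f := by
  classical
  let pb := AdjoinRoot.powerBasis hf.ne_zero
  have h1 := charpoly_leftMulMatrix pb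
  have h2 : minpoly F pb.gen = f := AdjoinRoot.minpoly_powerBasis_gen_of_monic hf
  have h3 : pb.dim = g := by rw [← hg]; rfl
  refine ⟨Matrix.reindex (finCongr h3) (finCongr h3) (Algebra.leftMulMatrix pb.basis pb.gen), ?_⟩
  rw [Matrix.charpoly_reindex, h1, h2]

theorem comp_charpoly {F : Type} [Field F] (g : ℕ) (M : Matrix (Fin g) (Fin g) F) (c : F)
    (hc : c ≠ 0) : M.charpoly.comp (C c * X) = C (c ^ g) * (c⁻¹ • M).charpoly := by
  have h1 : M.charpoly.comp (C c * X) = (Polynomial.compRingHom (C c * X)) M.charpoly := by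
    rw [Polynomial.coe_compRingHom_apply]
  rw [h1, Matrix.charpoly, RingHom.map_det, RingHom.mapMatrix_apply]
  have h2 : M.charmatrix.map (Polynomial.compRingHom (C c * X)) =
      (C c) • (c⁻¹ • M).charmatrix := by
    ext i j : 2
    rw [Matrix.map_apply, Matrix.smul_apply, Matrix.charmatrix_apply, Matrix.charmatrix_apply,
      Matrix.smul_apply, Polynomial.coe_compRingHom_apply, Matrix.diagonal_apply, smul_eq_mul,
      smul_eq_mul]
    split_ifs with hij
    · rw [Polynomial.sub_comp, Polynomial.X_comp, Polynomial.C_comp, mul_sub, ← C_mul,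
        mul_inv_cancel_left₀ hc]
    · rw [Polynomial.sub_comp, Polynomial.zero_comp, Polynomial.C_comp, mul_sub, ← C_mul,
        mul_inv_cancel_left₀ hc, mul_zero]
  rw [h2, Matrix.det_smul, Fintype.card_fin, Matrix.charpoly, C_pow]

theorem dual_charpoly {F : Type} [Field F] (g : ℕ) (M : Matrix (Fin g) (Fin g) F) (c : F)
    (hc : c ≠ 0) (hM : M.det ≠ 0) :
    C (M.charpoly.coeff 0) * (c • M⁻¹).charpoly = (M.charpoly.comp (C c * X)).reverse := by
  set E : Matrix (Fin g) (Fin g) F := c⁻¹ • M with hE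
  have hEdet : E.det = (c ^ g)⁻¹ * M.det := by
    rw [hE, Matrix.det_smul, Fintype.card_fin, inv_pow]
  have hEd0 : E.det ≠ 0 := by
    rw [hEdet]; exact mul_ne_zero (inv_ne_zero (pow_ne_zero _ hc)) hM
  have hEinv : E⁻¹ = c • M⁻¹ := by
    apply Matrix.inv_eq_right_inv
    rw [hE, Matrix.smul_mul, Matrix.mul_smul, smul_smul, inv_mul_cancel₀ hc, one_smul,
      Matrix.mul_nonsing_inv _ (isUnit_iff_ne_zero.2 hM)]
  have hEu : IsUnit E := (Matrix.isUnit_iff_isUnit_det _).2 (isUnit_iff_ne_zero.2 hEd0)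
  have h1 := Matrix.charpoly_inv E hEu
  rw [hEinv, Fintype.card_fin, Ring.inverse_eq_inv', ← Matrix.reverse_charpoly] at h1
  rw [comp_charpoly g M c hc, Polynomial.reverse_mul_of_domain, Polynomial.reverse_C, h1, ← hE]
  have h2 := Matrix.det_eq_sign_charpoly_coeff M
  rw [Fintype.card_fin] at h2
  have h3 : M.charpoly.coeff 0 = (-1) ^ g * M.det := by
    rw [h2, ← mul_assoc, ← mul_pow]; simp
  have h4 : C (M.charpoly.coeff 0) * ((-1) ^ g * C E.det⁻¹ * E.charpoly.reverse) =
      C (M.charpoly.coeff 0 * (-1) ^ g * E.det⁻¹) * E.charpoly.reverse := by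
    simp only [C_mul, C_pow, C_neg, C_1]; ring
  rw [h4]
  congr 2
  rw [h3, hEdet]
  have h5 : ((-1 : F) ^ g) * (-1) ^ g = 1 := by rw [← mul_pow]; simp
  field_simp
  linear_combination h5

theorem real1 (h : St_OMEG) : St_REAL1 := by
  intro g l r κ f hg hl hl5 hlr hf hfg hf0 hsq
  have : Fact l.Prime := ⟨hl⟩
  have hr : (r : ZMod l) ≠ 0 := by
    intro h0
    exact hlr ((ZMod.natCast_eq_zero_iff r l).1 h0)
  obtain ⟨A, hA⟩ := exists_charpoly f hf g hfg
  have hdetA : A.det = (-1) ^ g * f.coeff 0 := by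
    rw [Matrix.det_eq_sign_charpoly_coeff, hA, Fintype.card_fin]
  have hA0 : A.det ≠ 0 := by
    rw [hdetA]; exact mul_ne_zero (pow_ne_zero _ (by simp)) hf0
  have hAu : IsUnit A.det := isUnit_iff_ne_zero.2 hA0
  set M : Matrix (Fin g) (Fin g) (ZMod l) := (r : ZMod l)⁻¹ • A with hM
  have hMinv : M⁻¹ = (r : ZMod l) • A⁻¹ := by
    apply Matrix.inv_eq_right_inv
    rw [hM, Matrix.smul_mul, Matrix.mul_smul, smul_smul, inv_mul_cancel₀ hr, one_smul,
      Matrix.mul_nonsing_inv _ hAu]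
  have hMdet : M.det = ((r : ZMod l) ^ g)⁻¹ * A.det := by
    rw [hM, Matrix.det_smul, Fintype.card_fin, inv_pow]
  have hM0 : M.det ≠ 0 := by
    rw [hMdet]; exact mul_ne_zero (inv_ne_zero (pow_ne_zero _ hr)) hA0
  set d : Fin g → ZMod l := fun i => if i.val = 0 then (κ : ZMod l) else 1 with hd
  set d' : Fin g → ZMod l := fun i => if i.val = 0 then ((κ⁻¹ : (ZMod l)ˣ) : ZMod l) else 1
    with hd'
  have hdd : ∀ i, d i * d' i = 1 := by
    intro i
    simp only [hd, hd']
    split_ifs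
    · exact Units.mul_inv κ
    · exact one_mul 1
  have hdd' : Matrix.diagonal d * Matrix.diagonal d' = 1 := by
    rw [Matrix.diagonal_mul_diagonal, ← Matrix.diagonal_one]
    congr 1
    funext i
    exact hdd i
  have hd'd : Matrix.diagonal d' * Matrix.diagonal d = 1 := by
    rw [Matrix.diagonal_mul_diagonal, ← Matrix.diagonal_one]
    congr 1
    funext i
    rw [mul_comm]
    exact hdd i
  have hg0 : 0 < g := by omega
  have hdetd' : (Matrix.diagonal d').det = ((κ⁻¹ : (ZMod l)ˣ) : ZMod l) := by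
    rw [Matrix.det_diagonal]
    rw [Finset.prod_eq_single (⟨0, hg0⟩ : Fin g)]
    · exact if_pos rfl
    · intro i _ hi
      have : i.val ≠ 0 := by
        intro h0
        exact hi (Fin.ext h0)
      exact if_neg this
    · intro hx
      exact absurd (Finset.mem_univ _) hx
  set M' : Matrix (Fin g) (Fin g) (ZMod l) := Matrix.diagonal d' * M with hM'
  have hM'det : M'.det = ((κ⁻¹ : (ZMod l)ˣ) : ZMod l) * M.det := by
    rw [hM', Matrix.det_mul, hdetd']
  have hκ : (κ : ZMod l) ≠ 0 := κ.ne_zero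
  have hκ' : ((κ⁻¹ : (ZMod l)ˣ) : ZMod l) = (κ : ZMod l)⁻¹ := by
    rw [Units.val_inv_eq_inv_val]
  have hM'0 : M'.det ≠ 0 := by
    rw [hM'det]; exact mul_ne_zero (Units.ne_zero _) hM0
  have hM'sq : IsSquare M'.det := by
    obtain ⟨y, hy⟩ := hsq
    refine ⟨y * ((κ : ZMod l) * (r : ZMod l) ^ g)⁻¹, ?_⟩
    rw [hM'det, hMdet, hdetA, hκ']
    field_simp
    linear_combination hy
  have hM'inv : M'⁻¹ = M⁻¹ * Matrix.diagonal d := by
    apply Matrix.inv_eq_right_inv
    calc M' * (M⁻¹ * Matrix.diagonal d)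
        = Matrix.diagonal d' * (M * M⁻¹) * Matrix.diagonal d := by
          rw [hM']; simp only [Matrix.mul_assoc]
      _ = 1 := by
          rw [Matrix.mul_nonsing_inv _ (isUnit_iff_ne_zero.2 hM0), Matrix.mul_one, hd'd]
  obtain ⟨ω, hω, hωv⟩ := h g l hg hl hl5 M' hM'0 hM'sq
  refine ⟨Matrix.fromBlocks M 0 0 M⁻¹.transpose, ⟨ω, hω, ?_⟩, ?_⟩
  · rw [hωv]
    have h1 : diagElt g l κ = Matrix.fromBlocks (Matrix.diagonal d) 0 0 (Matrix.diagonal d') := by
      rw [Matrix.fromBlocks_diagonal]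
      rfl
    rw [h1, Matrix.fromBlocks_multiply]
    simp only [Matrix.mul_zero, Matrix.zero_mul, add_zero, zero_add]
    congr 1
    · rw [hM', ← Matrix.mul_assoc, hdd', Matrix.one_mul]
    · rw [hM'inv, Matrix.transpose_mul, Matrix.diagonal_transpose, ← Matrix.mul_assoc, hd'd,
        Matrix.one_mul]
  · have h2 : (r : ZMod l) • Matrix.fromBlocks M 0 0 M⁻¹.transpose =
        Matrix.fromBlocks A 0 0 (((r : ZMod l) ^ 2) • A⁻¹).transpose := by
      rw [Matrix.fromBlocks_smul, smul_zero]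
      congr 1
      · rw [hM, smul_smul, mul_inv_cancel₀ hr, one_smul]
      · rw [hMinv, Matrix.transpose_smul, Matrix.transpose_smul, smul_smul, pow_two]
    rw [h2, Matrix.charpoly_fromBlocks_zero₂₁, Matrix.charpoly_transpose, hA]
    have h3 := dual_charpoly g A ((r : ZMod l) ^ 2) (pow_ne_zero _ hr) hA0
    rw [hA] at h3
    rw [← h3]
    ring

end Pool.Agent.W475.MF
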